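import Mathlib
import Pool.Agent.X219.GroupJump

set_option autoImplicit false

namespace Pool.Agent.Results.MP_9b97c3_lc.IteratedJumpNotSingle

open Set Filter Topology

/-- The `G`-jump of `E`. -/
def jump (G : Type) [Group G] {X : Type} (E : X → X → Prop) : (G → X) → (G → X) → Prop :=
  fun α β => ∃ g : G, ∀ h : G, E (α (g⁻¹ * h)) (β h)

/-- `E` is Borel reducible to `F`. -/
def BorelRed {X Y : Type} [TopologicalSpace X] [TopologicalSpace Y]
    (E : X → X → Prop) (F : Y → Y → Prop) : Prop :=
  ∃ f : X → Y, @Measurable X Y (borel X) (borel Y) f ∧ ∀ x x' : X, E x x' ↔ F (f x) (f x')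

theorem result (G H : Type) [Group G] [Group H] [Countable G] [Countable H]
    [Infinite G] [Infinite H] (X : Type) [TopologicalSpace X] [PolishSpace X] :
    (∀ E : X → X → Prop, Equivalence E → (∃ x y : X, ¬ E x y) →
      ∀ (Z : Type) [TopologicalSpace Z] [PolishSpace Z] (F : Z → Z → Prop), Equivalence F →
        (∀ z, {z' | F z z'}.Countable) → ¬ BorelRed (jump H (jump G E)) F) ∧
    (Nontrivial X → ∀ (K : Type) [Group K] [Countable K],
      ¬ BorelRed (jump H (jump G (Eq : X → X → Prop))) (jump K (Eq : X → X → Prop))) := by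
  have main : ∀ E : X → X → Prop, Equivalence E → (∃ x y : X, ¬ E x y) →
      ∀ (Z : Type) [TopologicalSpace Z] [PolishSpace Z] (F : Z → Z → Prop), Equivalence F →
        (∀ z, {z' | F z z'}.Countable) → ¬ BorelRed (jump H (jump G E)) F := by
    rintro E hE ⟨x, y, hxy⟩ Z _ _ F _ hFc ⟨f, hf, hred⟩
    set e : Bool → X := fun b => if b = true then x else y with he
    have heE : ∀ b b' : Bool, E (e b) (e b') ↔ b = b' := by
      intro b b'
      have hyx : ¬ E y x := fun h => hxy (hE.symm h)
      cases b <;> cases b' <;> simp [he, hE.refl, hxy, hyx]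
    have hι : Continuous (fun (α : H → G → Bool) => fun (k : H) (l : G) => e (α k l)) := by
      refine continuous_pi fun k => continuous_pi fun l => ?_
      exact (continuous_of_discreteTopology (f := e)).comp
        ((continuous_apply l).comp (continuous_apply k))
    refine Pool.Agent.X219.GJ.core (G := G) (H := H) F hFc
      (fun α => f (fun k l => e (α k l))) ?_ ?_
    · exact @Measurable.comp _ _ _ (borel _) (borel _) (borel _) _ _ hf hι.borel_measurable
    · intro α β
      rw [← hred]
      unfold jump Pool.Agent.X219.GJ.R2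
      simp only [heE]
  refine ⟨main, ?_⟩
  intro hX K _ _
  obtain ⟨x, y, hxy⟩ := exists_pair_ne X
  refine main Eq ⟨fun _ => rfl, fun h => h.symm, fun h h' => h.trans h'⟩ ⟨x, y, hxy⟩ (K → X)
    (jump K Eq) ⟨?_, ?_, ?_⟩ ?_
  · intro α
    exact ⟨1, fun h => by simp⟩
  · rintro α β ⟨g, hg⟩
    refine ⟨g⁻¹, fun h => ?_⟩
    rw [← hg]
    simp
  · rintro α β γ ⟨g, hg⟩ ⟨g', hg'⟩
    refine ⟨g' * g, fun h => ?_⟩
    rw [← hg', ← hg]
    simp [mul_assoc]
  · intro α
    have : {β | jump K (Eq : X → X → Prop) α β} ⊆ Set.range (fun g : K => fun h => α (g⁻¹ * h)) := by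
      rintro β ⟨g, hg⟩
      exact ⟨g, funext hg⟩
    exact (Set.countable_range _).mono this

end Pool.Agent.Results.MP_9b97c3_lc.IteratedJumpNotSingle
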